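import Mathlib
import Pool.Agent.W620.FN.Dichotomy

/-!
# Flat closing: a periodic limit flat, or continuum many limit flats

Let `G` act geometrically on a proper metric space `X` (for instance a proper CAT(0) space) and let
`F` be an `n`-flat, the image of an isometric embedding `f` of `n`-dimensional Euclidean space.
Then some limit of translates `g F` of `F` is a `G`-periodic `n`-flat, or there are continuum many
limits of translates of `F`, all of them meeting one ball, which are pairwise different, even modulo
`G`.

Idea of the proof.  Take a minimal closed set `M` of parametrised flats in the closure of the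
translates of `F` which is invariant under `G` and under the isometries of Euclidean space.  Having
the same image up to one of the finitely many `g` which move the base point by at most `k` is a
closed relation.  If all these relations have empty interior in `M × M`, a Cantor scheme gives the
continuum many flats.  Otherwise, in some open piece of `M` all flats have the same image up to
finitely many group elements; by minimality and compactness the stabiliser of the image of such a
flat acts cocompactly on it.
-/

namespace Pool.Agent.Results.MP_5e292f_al.PeriodicOrContinuum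
open Set

/-- The limit flats of the flat parametrised by `f`: the closure, for pointwise convergence, of
the set of all isometric embeddings of Euclidean `n`-space whose image is a translate `g • F` of the
image `F` of `f`. -/
def LimitFlats (G : Type*) {X : Type*} [Group G] [MetricSpace X] [MulAction G X] {n : ℕ}
    (f : EuclideanSpace ℝ (Fin n) → X) : Set (EuclideanSpace ℝ (Fin n) → X) :=
  closure {h : EuclideanSpace ℝ (Fin n) → X |
    Isometry h ∧ ∃ g : G, range h = (fun x => g • x) '' range f}

/-- The subset `F` is `G`-periodic: a subgroup of `G` preserves it and acts cocompactly on it. -/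
def Periodic (G : Type*) {X : Type*} [Group G] [MetricSpace X] [MulAction G X] (F : Set X) : Prop :=
  ∃ (G₀ : Subgroup G) (K : Set X), IsCompact K ∧ (∀ g ∈ G₀, (fun x => g • x) '' F = F) ∧
    ∀ x ∈ F, ∃ g ∈ G₀, g • x ∈ K

/-- Let `G` act geometrically (by isometries, properly discontinuously, cocompactly) on a proper
metric space `X` and let `f` be an isometric embedding of Euclidean `n`-space.  Then `f` has a limit
flat whose image is a `G`-periodic `n`-flat, or `f` has continuum many limit flats `Φ x` (`x` a
sequence of zeros and ones), all meeting one ball, such that `Φ x` and `g • Φ y` have different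
images for all `g ∈ G` and `x ≠ y`. -/
theorem result {X : Type*} [MetricSpace X] [ProperSpace X] {G : Type*} [Group G] [MulAction G X]
    [IsIsometricSMul G X] [ProperlyDiscontinuousSMul G X]
    (hcc : ∃ K : Set X, IsCompact K ∧ ∀ x : X, ∃ g : G, g • x ∈ K)
    {n : ℕ} (f : EuclideanSpace ℝ (Fin n) → X) (hf : Isometry f) :
    (∃ f' ∈ LimitFlats G f, Isometry f' ∧ Periodic G (range f')) ∨
    ∃ (Φ : (ℕ → Bool) → (EuclideanSpace ℝ (Fin n) → X)) (R : ℝ),
      (∀ x, Isometry (Φ x) ∧ Φ x ∈ LimitFlats G f ∧ dist (Φ x 0) (f 0) ≤ R) ∧
      ∀ x y, x ≠ y → ∀ g : G, range (Φ x) ≠ (fun p => g • p) '' range (Φ y) := by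
  obtain ⟨K, hK, hGK⟩ := hcc
  have hinv := Pool.Agent.W620.FN.inv_closure (G := G) f
  rcases Pool.Agent.W620.FN.dichotomy (f 0) hK hGK hinv ⟨f, subset_closure ⟨hf, 1, by simp⟩⟩ with
    ⟨f', hf', K', hK', hper⟩ | ⟨Φ, R, h1, h2, h3⟩
  · left
    refine ⟨f', hf', hinv.isom _ hf', ?_⟩
    open scoped Pointwise in
    refine ⟨MulAction.stabilizer G (range f'), K', hK', fun g hg => ?_, fun x hx => ?_⟩
    · exact MulAction.mem_stabilizer_iff.1 hg
    · obtain ⟨g, hg, hgx⟩ := hper x hx
      exact ⟨g, MulAction.mem_stabilizer_iff.2 hg, hgx⟩
  · right
    exact ⟨Φ, R, fun x => ⟨hinv.isom _ (h1 x), h1 x, h2 x⟩, h3⟩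

end Pool.Agent.Results.MP_5e292f_al.PeriodicOrContinuum
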